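import Pool.Agent.H.MP_0c20e5_lc.C

set_option autoImplicit false

namespace Pool.Agent.Results.MP_0c20e5_lc.Yes

open Pool.Agent.H.MP_0c20e5_lc

variable {A : Type}

/-- `X` is a finite union of sets `L × R` with `L, R ∈ S` -/
def Dcp (S : Set (Language A)) (X : Set (List A × List A)) : Prop :=
  ∃ T : Set (Language A × Language A), T.Finite ∧ (∀ q ∈ T, q.1 ∈ S ∧ q.2 ∈ S) ∧
    X = {p | ∃ q ∈ T, p.1 ∈ q.1 ∧ p.2 ∈ q.2}

def Decomposable (K : Language A) : Prop :=
  ∃ S : Set (Language A), S.Finite ∧ K ∈ S ∧ ∀ L ∈ S, Dcp S (tau L) ∧ Dcp S (sig L)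

def GroupLang (L : Language A) : Prop :=
  ∃ (G : Type) (_ : Group G) (_ : Finite G) (f : FreeMonoid A →* G) (U : Set G),
    L = {w | f (FreeMonoid.ofList w) ∈ U}

inductive Mon : Language A → Prop
  | one {L} : GroupLang L → Mon L
  | cons {L M} (a : A) : GroupLang L → Mon M → Mon (L * {[a]} * M)

def PolG (L : Language A) : Prop :=
  ∃ T : Set (Language A), T.Finite ∧ (∀ M ∈ T, Mon M) ∧ L = {w | ∃ M ∈ T, w ∈ M}

theorem dcp {S : Set (Language A)} (h : S.Finite) {X} (a : Cov S X) : Dcp S X :=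
  ⟨{q ∈ S ×ˢ S | ∀ u ∈ q.1, ∀ v ∈ q.2, (u, v) ∈ X}, (h.prod h).subset fun _ e => e.1, fun _ e => e.1,
    Set.ext fun p => ⟨fun e => let ⟨L, b, R, c, d, f, g⟩ := a p e; ⟨(L, R), ⟨⟨b, c⟩, g⟩, d, f⟩,
      fun ⟨_, b, c, d⟩ => b.2 _ c _ d⟩⟩

theorem gl [Finite A] {L : Language A} (h : GroupLang L) : D L := by
  obtain ⟨G, _, _, f, U, rfl⟩ := h
  have k : ∀ w, f (FreeMonoid.ofList w) = pi (fun a => f (.of a)) w := fun w => by
    induction w <;> simp [*]
  exact main _ A rfl G (fun a => f (.of a)) _ fun u v a b =>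
    show f _ ∈ U by rw [k, ← b.pi, ← k]; exact a

theorem result (A : Type) [Finite A] (L : Language A) (h : PolG L) : Decomposable L := by
  obtain ⟨T, a, b, rfl⟩ := h
  obtain ⟨S, c, d⟩ := D_union a fun M e => show D M by
    have := b M e
    clear e
    induction this with
    | one h => exact gl h
    | cons a h _ ih => exact ((gl h).mul (D_one le_rfl)).mul ih
  exact ⟨S, c.1, d, fun L e => (c.2 L e).imp (dcp c.1) (dcp c.1)⟩

end Pool.Agent.Results.MP_0c20e5_lc.Yes
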